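import Mathlib
import Pool.Agent.Q175.Om

/-!
# Closed subgroups of topological groups that are `k_ℝ`-spaces

Every product of discrete spaces is a `k_ℝ`-space, but a product of `ω₁` discrete groups has a
closed subgroup that is a non-discrete `P`-space, and this is not a `k_ℝ`-space.
-/

open Set Filter Topology
open Q175.O1

namespace Pool.Agent.Results.MP_ebea7e_gt.ClosedSubgroup

/-- Every real function that is continuous on each compact set is continuous. -/
def IsKR (X : Type*) [TopologicalSpace X] : Prop :=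
  ∀ f : X → ℝ, (∀ K : Set X, IsCompact K → ContinuousOn f K) → Continuous f

/-! ### Products of discrete spaces -/

section Product

variable {ι : Type*} {X : ι → Type*} [∀ i, TopologicalSpace (X i)]

open Classical in
/-- `q` on `E` and `p` elsewhere. -/
noncomputable def mix (E : Set ι) (p q : ∀ i, X i) : ∀ i, X i :=
  fun i => if i ∈ E then q i else p i

omit [∀ i, TopologicalSpace (X i)] in
theorem mix_of_mem {E : Set ι} (p q : ∀ i, X i) {i : ι} (h : i ∈ E) : mix E p q i = q i :=
  if_pos h

omit [∀ i, TopologicalSpace (X i)] in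
theorem mix_of_notMem {E : Set ι} (p q : ∀ i, X i) {i : ι} (h : i ∉ E) : mix E p q i = p i :=
  if_neg h

theorem isCompact_box (p q : ∀ i, X i) : IsCompact {x : ∀ i, X i | ∀ i, x i = p i ∨ x i = q i} := by
  have : {x : ∀ i, X i | ∀ i, x i = p i ∨ x i = q i} = Set.pi univ fun i => {p i, q i} := by
    ext x
    simp
  rw [this]
  exact isCompact_univ_pi fun i => (toFinite _).isCompact

/-- Finite modifications of `p` approximate `q`. -/
theorem exists_finite_mix {f : (∀ i, X i) → ℝ}
    (hf : ∀ K : Set (∀ i, X i), IsCompact K → ContinuousOn f K) (p q : ∀ i, X i) {r : ℝ}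
    (h : r < |f q - f p|) : ∃ E : Set ι, E.Finite ∧ r < |f (mix E p q) - f p| := by
  classical
  have hc := hf _ (isCompact_box p q) q (fun i => Or.inr rfl)
  have hlim : Tendsto (fun E : Finset ι => mix (E : Set ι) p q) atTop
      (𝓝[{x : ∀ i, X i | ∀ i, x i = p i ∨ x i = q i}] q) := by
    rw [tendsto_nhdsWithin_iff]
    constructor
    · rw [tendsto_pi_nhds]
      intro i
      refine tendsto_const_nhds.congr' ?_
      filter_upwards [eventually_ge_atTop {i}] with E hE
      rw [mix_of_mem]
      exact hE (Finset.mem_singleton_self i)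
    · refine Eventually.of_forall fun E i => ?_
      by_cases hi : i ∈ (E : Set ι)
      · exact Or.inr (mix_of_mem p q hi)
      · exact Or.inl (mix_of_notMem p q hi)
  have h2 : Tendsto (fun E : Finset ι => |f (mix (E : Set ι) p q) - f p|) atTop
      (𝓝 |f q - f p|) := by
    have := hc.tendsto.comp hlim
    exact (this.sub_const _).abs
  obtain ⟨E, hE⟩ := (h2.eventually (lt_mem_nhds h)).exists
  exact ⟨E, E.finite_toSet, hE⟩

/-- Products of discrete spaces are `k_ℝ`-spaces. -/
theorem isKR_pi [∀ i, DiscreteTopology (X i)] : IsKR (∀ i, X i) := by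
  classical
  intro f hf
  rw [continuous_iff_continuousAt]
  intro p
  rw [Metric.continuousAt_iff']
  intro r hr
  -- a finite set of coordinates controls `f` near `p`
  have key : ∃ F : Finset ι, ∀ q : ∀ i, X i, (∀ i ∈ F, q i = p i) → |f q - f p| ≤ r / 2 := by
    by_contra hcon
    push Not at hcon
    have h1 : ∀ F : Finset ι, ∃ E : Finset ι, ∃ q : ∀ i, X i, Disjoint F E ∧
        (∀ i ∉ E, q i = p i) ∧ r / 2 < |f q - f p| := by
      intro F
      obtain ⟨q, hq, hlt⟩ := hcon F
      obtain ⟨E, hE, hlt'⟩ := exists_finite_mix hf p q hlt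
      refine ⟨hE.toFinset \ F, mix E p q, Finset.disjoint_sdiff, fun i hi => ?_, hlt'⟩
      by_cases hiE : i ∈ E
      · rw [mix_of_mem _ _ hiE]
        apply hq
        by_contra hiF
        exact hi (Finset.mem_sdiff.2 ⟨hE.mem_toFinset.2 hiE, hiF⟩)
      · exact mix_of_notMem _ _ hiE
    choose E q hdisj hq hlt using h1
    let F : ℕ → Finset ι := fun n => Nat.rec ∅ (fun _ F => F ∪ E F) n
    have hF : ∀ n, F (n + 1) = F n ∪ E (F n) := fun n => rfl
    have hmono : Monotone F := monotone_nat_of_le_succ fun n => by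
      rw [hF]
      exact Finset.subset_union_left
    have hlim : Tendsto (fun n => q (F n)) atTop (𝓝 p) := by
      rw [tendsto_pi_nhds]
      intro i
      refine tendsto_const_nhds.congr' ?_
      by_cases hi : ∃ n, i ∈ E (F n)
      · obtain ⟨n, hn⟩ := hi
        filter_upwards [eventually_gt_atTop n] with m hm
        rw [hq]
        intro him
        have h2 : i ∈ F m := hmono (Nat.succ_le_of_lt hm) (by
          rw [Nat.succ_eq_add_one, hF]
          exact Finset.mem_union_right _ hn)
        exact Finset.disjoint_left.1 (hdisj (F m)) h2 him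
      · push Not at hi
        exact Eventually.of_forall fun n => (hq (F n) i (hi n)).symm
    have hK := hf _ hlim.isCompact_insert_range p (mem_insert _ _)
    have hlim' : Tendsto (fun n => q (F n)) atTop
        (𝓝[insert p (range fun n => q (F n))] p) := by
      rw [tendsto_nhdsWithin_iff]
      exact ⟨hlim, Eventually.of_forall fun n => mem_insert_of_mem _ ⟨n, rfl⟩⟩
    have h3 : Tendsto (fun n => |f (q (F n)) - f p|) atTop (𝓝 0) := by
      have := ((hK.tendsto.comp hlim').sub_const (f p)).abs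
      simpa using this
    obtain ⟨n, hn⟩ := (h3.eventually (gt_mem_nhds (half_pos hr))).exists
    exact absurd hn (not_lt.2 (hlt (F n)).le)
  obtain ⟨F, hF⟩ := key
  have h4 : {q : ∀ i, X i | ∀ i ∈ F, q i = p i} ∈ 𝓝 p := by
    have : {q : ∀ i, X i | ∀ i ∈ F, q i = p i} = Set.pi (F : Set ι) fun i => {p i} := by
      ext x
      simp [Set.mem_pi]
    rw [this]
    exact set_pi_mem_nhds F.finite_toSet fun i _ => (isOpen_discrete _).mem_nhds rfl
  filter_upwards [h4] with q hq
  rw [Real.dist_eq]
  exact (hF q hq).trans_lt (half_lt_self hr)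

end Product

/-! ### A non-discrete `P`-space is not a `k_ℝ`-space -/

theorem not_isKR {X : Type*} [TopologicalSpace X] [T2Space X]
    (hP : ∀ x : X, CountableInterFilter (𝓝 x)) {a : X} (ha : ¬ IsOpen {a}) : ¬ IsKR X := by
  classical
  intro h
  have hfin : ∀ K : Set X, IsCompact K → K.Finite := by
    intro K hK
    by_contra hinf
    have hinf : K.Infinite := hinf
    set c := hinf.natEmbedding with hc
    have h1 : (range fun n => (c n : X)).Infinite :=
      infinite_range_of_injective (Subtype.val_injective.comp c.injective)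
    have h2 : (range fun n => (c n : X)) ⊆ K := by
      rintro _ ⟨n, rfl⟩
      exact (c n).2
    obtain ⟨x, _, hx⟩ := h1.exists_accPt_of_subset_isCompact hK h2
    rw [accPt_iff_frequently] at hx
    apply hx
    have h3 : ∀ n, ∀ᶠ y in 𝓝 x, (c n : X) ≠ x → y ≠ (c n : X) := by
      intro n
      by_cases hn : (c n : X) = x
      · exact Eventually.of_forall fun y h => absurd hn h
      · filter_upwards [isOpen_compl_singleton.mem_nhds (show x ∈ ({(c n : X)} : Set X)ᶜ from
          fun h => hn h.symm)] with y hy _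
        exact hy
    have := hP x
    have h4 := eventually_countable_forall.2 h3
    filter_upwards [h4] with y hy
    rintro ⟨hyx, n, rfl⟩
    exact hy n hyx rfl
  have hcont := h (fun x => if x = a then 0 else 1) fun K hK => (hfin K hK).continuousOn _
  apply ha
  have : ({a} : Set X) = (fun x => if x = a then (0 : ℝ) else 1) ⁻¹' (Iio 1) := by
    ext x
    by_cases hx : x = a <;> simp [hx]
  rw [this]
  exact isOpen_Iio.preimage hcont

/-! ### The group -/

/-- The discrete group of all functions from the predecessors of `α` to `ℤ / 2`. -/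
def D (α : Om) : Type := Iio α → ZMod 2

noncomputable instance (α : Om) : AddCommGroup (D α) :=
  inferInstanceAs (AddCommGroup (Iio α → ZMod 2))

instance (α : Om) : TopologicalSpace (D α) := ⊥

instance (α : Om) : DiscreteTopology (D α) := ⟨rfl⟩

/-- The closed subgroup of all compatible threads. -/
noncomputable def H : AddSubgroup (∀ α : Om, D α) where
  carrier := {x | ∀ (α β : Om) (γ : Om) (hα : γ < α) (hβ : γ < β), x α ⟨γ, hα⟩ = x β ⟨γ, hβ⟩}
  zero_mem' := fun _ _ _ _ _ => rfl
  add_mem' := by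
    intro x y hx hy α β γ hα hβ
    show x α ⟨γ, hα⟩ + y α ⟨γ, hα⟩ = x β ⟨γ, hβ⟩ + y β ⟨γ, hβ⟩
    rw [hx α β γ hα hβ, hy α β γ hα hβ]
  neg_mem' := by
    intro x hx α β γ hα hβ
    show -(x α ⟨γ, hα⟩) = -(x β ⟨γ, hβ⟩)
    rw [hx α β γ hα hβ]

theorem isClosed_H : IsClosed (H : Set (∀ α : Om, D α)) := by
  have : (H : Set (∀ α : Om, D α)) = ⋂ (α : Om) (β : Om) (γ : Om) (hα : γ < α) (hβ : γ < β),
      {x | x α ⟨γ, hα⟩ = x β ⟨γ, hβ⟩} := by
    ext x
    simp only [mem_iInter]
    rfl
  rw [this]
  refine isClosed_iInter fun α => isClosed_iInter fun β => isClosed_iInter fun γ =>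
    isClosed_iInter fun hα => isClosed_iInter fun hβ => ?_
  have h1 : IsClosed ((fun x : ∀ α : Om, D α => (x α, x β)) ⁻¹'
      {y : D α × D β | y.1 ⟨γ, hα⟩ = y.2 ⟨γ, hβ⟩}) :=
    (isClosed_discrete _).preimage (by fun_prop)
  exact h1

theorem mem_nhds_H {x : H} {U : Set H} (hU : U ∈ 𝓝 x) :
    ∃ α, ∀ y : H, y.1 α = x.1 α → y ∈ U := by
  rw [nhds_subtype_eq_comap, mem_comap] at hU
  obtain ⟨V, hV, hVU⟩ := hU
  rw [nhds_pi, Filter.mem_pi] at hV
  obtain ⟨I, hI, t, ht, hsub⟩ := hV
  obtain ⟨α, hα⟩ := exists_bound hI.countable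
  refine ⟨α, fun y hy => hVU (hsub fun i hi => ?_)⟩
  have : y.1 i = x.1 i := by
    funext ⟨γ, hγ⟩
    rw [y.2 i α γ hγ (lt_trans hγ (hα i hi)), hy, x.2 α i γ _ hγ]
  rw [this]
  exact mem_of_mem_nhds (ht i)

theorem mem_nhds_H' (x : H) (α : Om) : {y : H | y.1 α = x.1 α} ∈ 𝓝 x := by
  have h1 : Continuous fun y : H => y.1 α := (continuous_apply α).comp continuous_subtype_val
  have h2 : IsOpen ((fun y : H => y.1 α) ⁻¹' {x.1 α}) := (isOpen_discrete _).preimage h1
  exact h2.mem_nhds rfl

theorem pspace_H (x : H) : CountableInterFilter (𝓝 x) := by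
  refine ⟨fun S hS h => ?_⟩
  have h1 : ∀ U : Set H, ∃ α, U ∈ S → ∀ y : H, y.1 α = x.1 α → y ∈ U := by
    intro U
    by_cases hU : U ∈ S
    · obtain ⟨α, hα⟩ := mem_nhds_H (h U hU)
      exact ⟨α, fun _ => hα⟩
    · exact ⟨Classical.arbitrary _, fun h' => absurd h' hU⟩
  choose α hα using h1
  obtain ⟨β, hβ⟩ := exists_bound (hS.image α)
  refine mem_of_superset (mem_nhds_H' x β) ?_
  intro y hy U hU
  refine hα U hU y ?_
  have hlt := hβ _ ⟨U, hU, rfl⟩
  funext ⟨γ, hγ⟩
  rw [y.2 (α U) β γ hγ (lt_trans hγ hlt), show y.1 β = x.1 β from hy, x.2 β (α U) γ _ hγ]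

theorem not_isOpen_zero : ¬ IsOpen ({0} : Set H) := by
  classical
  intro h
  obtain ⟨α, hα⟩ := mem_nhds_H (h.mem_nhds rfl)
  obtain ⟨β, hβ⟩ := exists_gt α
  let z : H := ⟨fun _ γ => if γ.1 = α then 1 else 0, fun _ _ _ _ _ => rfl⟩
  have h1 : z ∈ ({0} : Set H) := by
    refine hα z ?_
    funext ⟨γ, hγ⟩
    show (if γ = α then (1 : ZMod 2) else 0) = 0
    rw [if_neg (ne_of_lt hγ)]
  have h2 : z.1 β ⟨α, hβ⟩ = (0 : ZMod 2) := by
    rw [show z = 0 from h1]
    rfl
  have h3 : z.1 β ⟨α, hβ⟩ = (1 : ZMod 2) := if_pos rfl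
  rw [h3] at h2
  exact one_ne_zero h2

/-- There is a Tychonoff abelian topological group that is a `k_ℝ`-space and has a closed subgroup
that is not a `k_ℝ`-space. -/
theorem result : ∃ (G : Type) (_ : AddCommGroup G) (_ : TopologicalSpace G)
    (_ : IsTopologicalAddGroup G) (H : AddSubgroup G), T35Space G ∧ IsKR G ∧
      IsClosed (H : Set G) ∧ ¬ IsKR H :=
  ⟨∀ α : Om, D α, inferInstance, inferInstance, inferInstance, H, inferInstance, isKR_pi,
    isClosed_H, not_isKR pspace_H not_isOpen_zero⟩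

end Pool.Agent.Results.MP_ebea7e_gt.ClosedSubgroup
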